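import Mathlib
import Pool.Agent.N741.HB.Thm2

/-!
# abc-triples with a member which is a high power of an integer of exponential size

For all `N`, `E`, `M` and `ε > 0` there are `R` and `δ > 0` such that for every `Y ≥ 1`: consider the
abc-triples `(a, b, c)` with `c ≥ Y ^ R`, two members of which are products of powers, with
arbitrary exponents, of `N` positive integers up to `Y` (and of a positive integer up to `Y ^ E`),
and whose third member is `s * z ^ r` with `s ≤ Y ^ E`, `r ≥ R` and an arbitrary positive integer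
`z`. All of them violate the weak abc conjecture with exponent `M`: `c ≥ rad (abc) ^ M`; but at most
`Y ^ ε` of them have `c ≤ exp (Y ^ δ)`.

Here `z` and so `rad (abc)` may be as large as `exp (Y ^ δ / R)`.

The proof uses the core theorem of the project HB (a sum of two products of powers of integers up to
`Y` which is an `r`-th power of an integer of exponential size: the large parts of the two terms
take at most `Y ^ ε` values; Mason's theorem over function fields, a determinant method for large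
`z`) and a theorem on the power values of polynomials with coefficients of exponential size. Parts
of the proof by helpers 20, 26, 27, 54, 72, 152, 368, 403, 415, 426, 459, 572, 603, 618, 966; it
uses the core theorem on monomials of helper902.
-/

set_option autoImplicit false

namespace Pool.Agent.Results.MP_2ec8a3_nt.HugePowerMember

/-- abc-triples -/
def IsTriple (t : ℕ × ℕ × ℕ) : Prop :=
  0 < t.1 ∧ 0 < t.2.1 ∧ Nat.Coprime t.1 t.2.1 ∧ t.1 + t.2.1 = t.2.2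

/-- the product of the primes dividing `n` -/
def rad (n : ℕ) : ℕ := ∏ p ∈ n.primeFactors, p

/-- `m₁` and `m₂` are products of powers of `N` positive integers up to `Y` and of a positive integer
up to `Y ^ E`, and `m₃` is an `r`-th power, `r ≥ R`, times a positive integer up to `Y ^ E` -/
def Form (N E R Y : ℕ) (m₁ m₂ m₃ : ℕ) : Prop :=
  ∃ (x : Fin N → ℕ) (e₁ e₂ : Fin N → ℕ) (s₁ s₂ s₃ z r : ℕ), (∀ j, 1 ≤ x j ∧ x j ≤ Y) ∧
    s₁ ≤ Y ^ E ∧ s₂ ≤ Y ^ E ∧ s₃ ≤ Y ^ E ∧ R ≤ r ∧ m₁ = s₁ * ∏ j, x j ^ e₁ j ∧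
    m₂ = s₂ * ∏ j, x j ^ e₂ j ∧ m₃ = s₃ * z ^ r

/-- the abc-triples with `c ≥ Y ^ R` and members of this form, in any order -/
def Triples (N E R Y : ℕ) : Set (ℕ × ℕ × ℕ) :=
  {t | IsTriple t ∧ Y ^ R ≤ t.2.2 ∧ (Form N E R Y t.1 t.2.1 t.2.2 ∨ Form N E R Y t.1 t.2.2 t.2.1 ∨
    Form N E R Y t.2.1 t.2.2 t.1)}

theorem rad_le {n m : ℕ} (hm : m ≠ 0) (h : ∀ p, p.Prime → p ∣ n → p ∣ m) : rad n ≤ m := by
  unfold rad
  have h1 : ∏ p ∈ n.primeFactors, p ∣ m :=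
    Finset.prod_primes_dvd m (fun p hp => (Nat.prime_of_mem_primeFactors hp).prime) fun p hp =>
      h p (Nat.prime_of_mem_primeFactors hp) (Nat.dvd_of_mem_primeFactors hp)
  exact Nat.le_of_dvd (Nat.pos_of_ne_zero hm) h1

theorem rad_form {N E R M Y m₁ m₂ m₃ c : ℕ} (hY : 1 ≤ Y) (hR : (3 * E + N + 1) * M ≤ R)
    (h1 : m₁ ≠ 0) (h2 : m₂ ≠ 0) (h3 : m₃ ≠ 0) (hc : Y ^ R ≤ c) (h3c : m₃ ≤ c)
    (h : Form N E R Y m₁ m₂ m₃) : rad (m₁ * m₂ * m₃) ^ M ≤ c := by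
  obtain ⟨x, e₁, e₂, s₁, s₂, s₃, z, r, hx, hs1, hs2, hs3, hr, k1, k2, k3⟩ := h
  have n1 : s₁ ≠ 0 := fun h0 => h1 (by rw [k1, h0, zero_mul])
  have n2 : s₂ ≠ 0 := fun h0 => h2 (by rw [k2, h0, zero_mul])
  have n3 : s₃ ≠ 0 := fun h0 => h3 (by rw [k3, h0, zero_mul])
  rcases Nat.eq_zero_or_pos M with hM | hM
  · rw [hM, pow_zero]
    omega
  have hr0 : r ≠ 0 := by
    have : 1 ≤ (3 * E + N + 1) * M := Nat.mul_pos (by omega) hM
    omega
  have nz : z ≠ 0 := fun h0 => h3 (by rw [k3, h0, zero_pow hr0, mul_zero])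
  have hx0 : ∏ j, x j ≠ 0 := Finset.prod_ne_zero_iff.2 fun j _ => by
    have := (hx j).1
    omega
  have key : rad (m₁ * m₂ * m₃) ≤ (s₁ * s₂ * s₃ * ∏ j, x j) * z := by
    refine rad_le (by positivity) fun p hp hd => ?_
    have hprod : ∀ e : Fin N → ℕ, p ∣ ∏ j, x j ^ e j → p ∣ ∏ j, x j := by
      intro e he
      obtain ⟨j, _, hj⟩ := (Prime.dvd_finsetProd_iff hp.prime _).1 he
      exact (hp.dvd_of_dvd_pow hj).trans (Finset.dvd_prod_of_mem x (Finset.mem_univ j))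
    rcases (Nat.Prime.dvd_mul hp).1 hd with hd | hd
    · rcases (Nat.Prime.dvd_mul hp).1 hd with hd | hd
      · rw [k1] at hd
        rcases (Nat.Prime.dvd_mul hp).1 hd with hd | hd
        · exact hd.trans ⟨s₂ * s₃ * (∏ j, x j) * z, by ring⟩
        · exact (hprod _ hd).trans ⟨s₁ * s₂ * s₃ * z, by ring⟩
      · rw [k2] at hd
        rcases (Nat.Prime.dvd_mul hp).1 hd with hd | hd
        · exact hd.trans ⟨s₁ * s₃ * (∏ j, x j) * z, by ring⟩
        · exact (hprod _ hd).trans ⟨s₁ * s₂ * s₃ * z, by ring⟩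
    · rw [k3] at hd
      rcases (Nat.Prime.dvd_mul hp).1 hd with hd | hd
      · exact hd.trans ⟨s₁ * s₂ * (∏ j, x j) * z, by ring⟩
      · exact (hp.dvd_of_dvd_pow hd).trans ⟨s₁ * s₂ * s₃ * ∏ j, x j, by ring⟩
  have hsx : s₁ * s₂ * s₃ * ∏ j, x j ≤ Y ^ (3 * E + N) := by
    calc s₁ * s₂ * s₃ * ∏ j, x j ≤ Y ^ E * Y ^ E * Y ^ E * ∏ _j : Fin N, Y :=
          Nat.mul_le_mul (Nat.mul_le_mul (Nat.mul_le_mul hs1 hs2) hs3)
            (Finset.prod_le_prod' fun j _ => (hx j).2)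
      _ = Y ^ (3 * E + N) := by
          rw [Finset.prod_const, Finset.card_univ, Fintype.card_fin]
          ring
  have h4 : rad (m₁ * m₂ * m₃) ≤ Y ^ (3 * E + N) * z := key.trans (Nat.mul_le_mul_right _ hsx)
  rcases le_or_gt z Y with hz | hz
  · calc rad (m₁ * m₂ * m₃) ^ M ≤ (Y ^ (3 * E + N) * Y) ^ M :=
          Nat.pow_le_pow_left (h4.trans (Nat.mul_le_mul_left _ hz)) _
      _ = Y ^ ((3 * E + N + 1) * M) := by rw [← pow_succ, ← pow_mul]
      _ ≤ Y ^ R := Nat.pow_le_pow_right hY hR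
      _ ≤ c := hc
  · calc rad (m₁ * m₂ * m₃) ^ M ≤ (z ^ (3 * E + N) * z) ^ M :=
          Nat.pow_le_pow_left (h4.trans (Nat.mul_le_mul_right _
            (Nat.pow_le_pow_left hz.le _))) _
      _ = z ^ ((3 * E + N + 1) * M) := by rw [← pow_succ, ← pow_mul]
      _ ≤ z ^ r := Nat.pow_le_pow_right (Nat.pos_of_ne_zero nz) (hR.trans hr)
      _ ≤ s₃ * z ^ r := Nat.le_mul_of_pos_left _ (Nat.pos_of_ne_zero n3)
      _ = m₃ := k3.symm
      _ ≤ c := h3c

theorem Form.mono {N E R R' Y m₁ m₂ m₃ : ℕ} (hR : R ≤ R') (h : Form N E R' Y m₁ m₂ m₃) :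
    Form N E R Y m₁ m₂ m₃ := by
  obtain ⟨x, e₁, e₂, s₁, s₂, s₃, z, r, hx, hs1, hs2, hs3, hr, h⟩ := h
  exact ⟨x, e₁, e₂, s₁, s₂, s₃, z, r, hx, hs1, hs2, hs3, hR.trans hr, h⟩

/-- **Few abc-triples with a huge power.** -/
theorem result (N E M : ℕ) (ε : ℝ) (hε : 0 < ε) : ∃ (R : ℕ) (δ : ℝ), 0 < δ ∧ ∀ Y : ℕ, 1 ≤ Y →
    (∀ t ∈ Triples N E R Y, rad (t.1 * t.2.1 * t.2.2) ^ M ≤ t.2.2) ∧
    {t ∈ Triples N E R Y | (t.2.2 : ℝ) ≤ Real.exp ((Y : ℝ) ^ δ)}.Finite ∧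
    ({t ∈ Triples N E R Y | (t.2.2 : ℝ) ≤ Real.exp ((Y : ℝ) ^ δ)}.ncard : ℝ) ≤
      (Y : ℝ) ^ ε := by
  obtain ⟨R₀, δ, hδ, H⟩ := Pool.Agent.N741.HB.abc N E ε hε
  refine ⟨max R₀ ((3 * E + N + 1) * M), δ, hδ, fun Y hY => ⟨?_, ?_⟩⟩
  · rintro ⟨a, b, c⟩ ⟨⟨ha, hb, hab, habc⟩, hc, hf⟩
    simp only at ha hb hab habc hc hf ⊢
    have hR : (3 * E + N + 1) * M ≤ max R₀ ((3 * E + N + 1) * M) := le_max_right _ _
    rcases hf with hf | hf | hf
    · exact rad_form hY hR (by omega) (by omega) (by omega) hc le_rfl hf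
    · have h1 := rad_form (c := c) hY hR (by omega) (by omega) (by omega) hc (by omega) hf
      rwa [show a * c * b = a * b * c by ring] at h1
    · have h1 := rad_form (c := c) hY hR (by omega) (by omega) (by omega) hc (by omega) hf
      rwa [show b * c * a = a * b * c by ring] at h1
  · have hfin : {t ∈ Triples N E (max R₀ ((3 * E + N + 1) * M)) Y |
        (t.2.2 : ℝ) ≤ Real.exp ((Y : ℝ) ^ δ)}.Finite := by
      refine Set.Finite.subset (s := (Set.Iic ⌊Real.exp ((Y : ℝ) ^ δ)⌋₊) ×ˢ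
        ((Set.Iic ⌊Real.exp ((Y : ℝ) ^ δ)⌋₊) ×ˢ (Set.Iic ⌊Real.exp ((Y : ℝ) ^ δ)⌋₊)))
        ((Set.finite_Iic _).prod ((Set.finite_Iic _).prod (Set.finite_Iic _))) ?_
      rintro ⟨a, b, c⟩ ⟨⟨⟨ha, hb, hab, habc⟩, -⟩, hc⟩
      simp only at ha hb hab habc hc
      have h1 : c ≤ ⌊Real.exp ((Y : ℝ) ^ δ)⌋₊ := Nat.le_floor hc
      exact ⟨by show a ≤ _; omega, by show b ≤ _; omega, h1⟩
    refine ⟨hfin, ?_⟩
    rw [Set.ncard_eq_toFinset_card _ hfin]
    refine H Y hY _ fun t ht => ?_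
    obtain ⟨⟨⟨ha, hb, hab, habc⟩, hc, hf⟩, hc'⟩ := hfin.mem_toFinset.1 ht
    refine ⟨ha, hb, hab, habc, (Nat.pow_le_pow_right hY (le_max_left _ _)).trans hc, hc', ?_⟩
    rcases hf with hf | hf | hf
    · exact Or.inl (hf.mono (le_max_left _ _))
    · exact Or.inr (Or.inl (hf.mono (le_max_left _ _)))
    · exact Or.inr (Or.inr (hf.mono (le_max_left _ _)))

end Pool.Agent.Results.MP_2ec8a3_nt.HugePowerMember
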