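import Mathlib
import Pool.Agent.N906.QP.AllR

/-!
# Oesterlé's weak form of the abc conjecture: the violators ordered by their radical, up to the second order term

Let `1/3 < M < 3/7` and `A ≥ 1`. The number `V(X)` of the triples of positive coprime integers `a + b = c` with
`rad(abc) ≤ X` and `rad(abc) ^ M ≤ c ≤ X ^ A` satisfies

  `log V(X) = (1 - M) log X + (√(24 (3 M - 1)) + o(1)) √(log X / log log X)`.

For `M` close to `1/3` the same holds without the condition `c ≤ X ^ A`.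
-/

set_option autoImplicit false

namespace Pool.Agent.Results.MP_2ec8a3_nt.RadicalOrder

open Filter Topology

/-- the product of the primes dividing `n` -/
def rad (n : ℕ) : ℕ := ∏ p ∈ n.primeFactors, p

/-- the triples `(a, b, c)` of positive integers with `gcd(a, b) = 1`, `a + b = c`, `rad(abc) ≤ X` and `rad(abc) ^ M ≤ c` -/
def Violators (M X : ℝ) : Set (ℕ × ℕ × ℕ) :=
  {t | 0 < t.1 ∧ 0 < t.2.1 ∧ Nat.Coprime t.1 t.2.1 ∧ t.1 + t.2.1 = t.2.2 ∧
    (rad (t.1 * t.2.1 * t.2.2) : ℝ) ≤ X ∧ (rad (t.1 * t.2.1 * t.2.2) : ℝ) ^ M ≤ (t.2.2 : ℝ)}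

/-- those with `c ≤ Z` -/
def ViolatorsUpTo (M X Z : ℝ) : Set (ℕ × ℕ × ℕ) := {t | t ∈ Violators M X ∧ (t.2.2 : ℝ) ≤ Z}

/-- **Theorem.** (1) Let `1/3 < M < 3/7` and `A ≥ 1`. The number `V(X)` of the triples of positive integers with
`gcd(a, b) = 1`, `a + b = c`, `rad(abc) ≤ X` and `rad(abc) ^ M ≤ c ≤ X ^ A` is finite, and
`(log V(X) - (1 - M) log X) / √(log X / log log X)` tends to `√(24 (3 M - 1))`.
(2) There is `M₀ > 1/3` such that for `1/3 < M < M₀` the same holds without the condition `c ≤ X ^ A`. -/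
theorem result :
    (∀ M A : ℝ, 1 / 3 < M → M < 3 / 7 → 1 ≤ A →
      (∀ X : ℝ, (ViolatorsUpTo M X (X ^ A)).Finite) ∧
      Tendsto (fun X : ℝ => (Real.log ((ViolatorsUpTo M X (X ^ A)).ncard : ℝ) - (1 - M) * Real.log X) /
        √(Real.log X / Real.log (Real.log X))) atTop (𝓝 √(24 * (3 * M - 1)))) ∧
    ∃ M₀ : ℝ, 1 / 3 < M₀ ∧ ∀ M : ℝ, 1 / 3 < M → M < M₀ →
      (∀ X : ℝ, (Violators M X).Finite) ∧
      Tendsto (fun X : ℝ => (Real.log ((Violators M X).ncard : ℝ) - (1 - M) * Real.log X) /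
        √(Real.log X / Real.log (Real.log X))) atTop (𝓝 √(24 * (3 * M - 1))) := by
  have h : ∀ M X Z : ℝ, ViolatorsUpTo M X Z = Pool.Agent.N906.KG.Rad3 M X Z := by
    intro M X Z
    ext t
    constructor
    · rintro ⟨⟨h1, h2, h3, h4, h5, h6⟩, h7⟩
      exact ⟨h1, h2, h3, h4, h7, h5, h6⟩
    · rintro ⟨h1, h2, h3, h4, h7, h5, h6⟩
      exact ⟨⟨h1, h2, h3, h4, h5, h6⟩, h7⟩
  simp only [h]
  exact Pool.Agent.N906.KG.finr_all

end Pool.Agent.Results.MP_2ec8a3_nt.RadicalOrder
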