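import Mathlib
import Pool.Agent.N745.TP.Core

/-!
# Almost all exceptions to Oesterlé's inequality have two members divisible by high powers

Exceptions: abc-triples with `R ^ M ≤ c ≤ exp (R ^ δ)`, `R = rad (abc)`. For given `θ`, `E`, `ε`
there are `M` and `δ > 0` such that for every `X` all but `C X ^ ε` of the exceptions with
`R ≤ X` have two members each of which is divisible by the `E`-th power of an integer in
`(R ^ (θ/2), R ^ θ]`; for given `n`, `E`, `ε` there are at most `C X ^ ε` exceptions two members of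
which are products of powers of `n` positive integers `≤ R ^ E`.

Proof. Let two members be products of powers of few bounded integers. If the third one is divisible
by `ρ ^ M'` with a small `ρ`, the quotient of the two members is `± 1` modulo `ρ ^ M'`, and the
counting theorem for such relations (starting library, `Y913`) applies. Otherwise the third member is
also a product of powers of few bounded integers, and the theorem of the starting library on such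
triples applies.
-/

set_option autoImplicit false

namespace Pool.Agent.Results.MP_2ec8a3_nt.TwoDustyMembers

open Pool.Agent.H785R2.ABC (IsABCTriple num)
open Pool.Agent.Y913.Nb (NB)

/-- the product of the primes dividing `n` -/
def radical (n : ℕ) : ℕ := ∏ p ∈ n.primeFactors, p

/-- the radical of `abc` for the triple `t = (a, b, c)` -/
def rad3 (t : ℕ × ℕ × ℕ) : ℕ := radical (t.1 * t.2.1 * t.2.2)

/-- the abc-triples `(a, b, c)` (`a, b ≥ 1` coprime, `a + b = c`) with `R ≤ X` and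
`R ^ M ≤ c ≤ exp (R ^ δ)`, where `R = rad (abc)` -/
def Exceptions (M δ X : ℝ) : Set (ℕ × ℕ × ℕ) :=
  {t | 0 < t.1 ∧ 0 < t.2.1 ∧ Nat.Coprime t.1 t.2.1 ∧ t.1 + t.2.1 = t.2.2 ∧ (rad3 t : ℝ) ≤ X ∧
    (rad3 t : ℝ) ^ M ≤ (t.2.2 : ℝ) ∧ (t.2.2 : ℝ) ≤ Real.exp ((rad3 t : ℝ) ^ δ)}

/-- two of the three members have the property `P` -/
def TwoOf (P : ℕ → Prop) (t : ℕ × ℕ × ℕ) : Prop :=
  (P t.1 ∧ P t.2.1) ∨ (P t.1 ∧ P t.2.2) ∨ (P t.2.1 ∧ P t.2.2)

/-- `m` is a product of powers (with arbitrary exponents) of `n` positive integers `≤ Y` -/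
def PowerProduct (n : ℕ) (Y : ℝ) (m : ℕ) : Prop :=
  ∃ x e : Fin n → ℕ, (∀ j, 1 ≤ x j ∧ (x j : ℝ) ≤ Y) ∧ m = ∏ j, x j ^ e j

/-- `m` is divisible by the `E`-th power of an integer in `(R ^ (θ/2), R ^ θ]` -/
def Dusty (R θ : ℝ) (E m : ℕ) : Prop :=
  ∃ ρ : ℕ, R ^ (θ / 2) < ρ ∧ (ρ : ℝ) ≤ R ^ θ ∧ ρ ^ E ∣ m

lemma dusty_iff {R θ : ℝ} {E m : ℕ} :
    Dusty R θ E m ↔ Pool.Agent.N745.T1.Dusty R θ E m :=
  ⟨fun ⟨ρ, h1, h2, h3⟩ => ⟨ρ, h3, h1, h2⟩, fun ⟨ρ, h3, h1, h2⟩ => ⟨ρ, h1, h2, h3⟩⟩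

lemma one_le_radical (n : ℕ) : 1 ≤ radical n :=
  Nat.one_le_iff_ne_zero.2 (Finset.prod_ne_zero_iff.2 fun _ hp =>
    (Nat.prime_of_mem_primeFactors hp).ne_zero)

lemma radical_dvd {m n : ℕ} (h : m ∣ n) (hn : n ≠ 0) : radical m ∣ radical n :=
  Finset.prod_dvd_prod_of_subset _ _ _ (Nat.primeFactors_mono h hn)

lemma triple {M δ X : ℝ} {t : ℕ × ℕ × ℕ} (h : t ∈ Exceptions M δ X) :
    IsABCTriple t.1 t.2.1 t.2.2 := by
  obtain ⟨h1, h2, h3, h4, -⟩ := h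
  refine ⟨h1, h2, by omega, h4, h3, ?_, ?_⟩
  · rw [← h4]
    exact (Nat.coprime_self_add_right).2 h3
  · rw [← h4]
    exact (Nat.coprime_add_self_right).2 h3.symm

lemma two_le_rad3 {M δ X : ℝ} {t : ℕ × ℕ × ℕ} (h : t ∈ Exceptions M δ X) : 2 ≤ rad3 t := by
  obtain ⟨h1, h2, h3, h4, -⟩ := h
  have hc : 1 < t.2.2 := by omega
  obtain ⟨p, hp, hpc⟩ := Nat.exists_prime_and_dvd (n := t.2.2) (by omega)
  have h0 : t.1 * t.2.1 * t.2.2 ≠ 0 := by positivity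
  have hpm : p ∈ (t.1 * t.2.1 * t.2.2).primeFactors :=
    Nat.mem_primeFactors.2 ⟨hp, hpc.mul_left _, h0⟩
  have hdvd : p ∣ rad3 t := Finset.dvd_prod_of_mem (fun q => q) hpm
  exact hp.two_le.trans (Nat.le_of_dvd (one_le_radical _) hdvd)

lemma finite_exc (M δ X : ℝ) (hδ : 0 < δ) : (Exceptions M δ X).Finite := by
  obtain ⟨H, hH⟩ := exists_nat_ge (Real.exp ((max X 1) ^ δ))
  refine Set.Finite.subset (Finset.finite_toSet
      ((Finset.range (H + 1)) ×ˢ (Finset.range (H + 1)) ×ˢ (Finset.range (H + 1)))) ?_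
  intro t ht
  obtain ⟨h1, h2, h3, h4, h5, h6, h7⟩ := ht
  have h8 : (t.2.2 : ℝ) ≤ H := by
    refine h7.trans (le_trans (Real.exp_le_exp.2 ?_) hH)
    exact Real.rpow_le_rpow (Nat.cast_nonneg _) (h5.trans (le_max_left _ _)) hδ.le
  have h9 : t.2.2 ≤ H := by exact_mod_cast h8
  rw [Finset.mem_coe, Finset.mem_product, Finset.mem_product, Finset.mem_range, Finset.mem_range,
    Finset.mem_range]
  omega

lemma rad_num_le {M δ X : ℝ} {t : ℕ × ℕ × ℕ} (h : t ∈ Exceptions M δ X) (j : Fin 3) :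
    Pool.Agent.H785R2.ABC.rad (num t j) ≤ rad3 t := by
  have ht := triple h
  have h0 : t.1 * t.2.1 * t.2.2 ≠ 0 := by
    have := ht.1
    have := ht.2.1
    have := ht.2.2.1
    positivity
  have hd : num t j ∣ t.1 * t.2.1 * t.2.2 := by
    fin_cases j
    · exact (Dvd.intro _ rfl : t.1 ∣ t.1 * t.2.1).mul_right _
    · exact (Dvd.intro_left _ rfl : t.2.1 ∣ t.1 * t.2.1).mul_right _
    · exact Dvd.intro_left _ rfl
  exact Nat.le_of_dvd (one_le_radical _) (radical_dvd hd h0)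

lemma nb_of_pp {n : ℕ} {Y : ℝ} {m : ℕ} (h : PowerProduct n Y m) : NB n Y m := by
  obtain ⟨x, e, h1, h2⟩ := h
  exact ⟨x, e, fun i => ⟨(h1 i).1, (h1 i).2⟩, h2⟩

lemma pp_of_nb {n : ℕ} {Y : ℝ} {m : ℕ} (h : NB n Y m) : PowerProduct n Y m := by
  obtain ⟨x, e, h1, h2⟩ := h
  exact ⟨x, e, fun i => ⟨(h1 i).1, (h1 i).2⟩, h2⟩

/-- one dyadic range of radicals -/
lemma count_dyadic {n E : ℕ} {ε L δ C : ℝ} (hL : 0 < L) (hδ : 0 < δ)
    (hcore : ∀ (X : ℝ) (p q r : Fin 3), 1 ≤ X → p ≠ q → q ≠ r → p ≠ r →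
      ∀ T : Finset (ℕ × ℕ × ℕ), (∀ t ∈ T, Pool.Agent.N745.TP.Two n E L δ X p q r t) →
        (T.card : ℝ) ≤ C * X ^ ε) (X : ℝ) (j : ℕ) (T : Finset (ℕ × ℕ × ℕ))
    (hT : ∀ t ∈ T, t ∈ Exceptions (2 * L) δ X ∧
      TwoOf (PowerProduct n ((rad3 t : ℝ) ^ E)) t ∧ rad3 t ≤ 2 ^ j ∧ 2 ^ j ≤ 2 * rad3 t) :
    (T.card : ℝ) ≤ 3 * (C * ((2 : ℝ) ^ j) ^ ε) := by
  classical
  have h2j : (1 : ℝ) ≤ (2 : ℝ) ^ j := one_le_pow₀ (by norm_num)
  have hone : ∀ (p q r : Fin 3), p ≠ q → q ≠ r → p ≠ r → ∀ T' : Finset (ℕ × ℕ × ℕ), T' ⊆ T →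
      (∀ t ∈ T', PowerProduct n ((rad3 t : ℝ) ^ E) (num t p) ∧
        PowerProduct n ((rad3 t : ℝ) ^ E) (num t q)) →
      (T'.card : ℝ) ≤ C * ((2 : ℝ) ^ j) ^ ε := by
    intro p q r hpq hqr hpr T' hT' hpp
    apply hcore _ p q r h2j hpq hqr hpr
    intro t ht
    obtain ⟨h1, -, h3, h4⟩ := hT t (hT' ht)
    obtain ⟨h5, h6⟩ := hpp t ht
    have hr2 : 2 ≤ rad3 t := two_le_rad3 h1
    have hr2' : (2 : ℝ) ≤ rad3 t := by exact_mod_cast hr2
    have hr0 : (0 : ℝ) < rad3 t := by linarith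
    have h3' : (rad3 t : ℝ) ≤ (2 : ℝ) ^ j := by exact_mod_cast h3
    have h4' : (2 : ℝ) ^ j ≤ 2 * rad3 t := by exact_mod_cast h4
    have hpow : (rad3 t : ℝ) ^ E ≤ ((2 : ℝ) ^ j) ^ E := pow_le_pow_left₀ hr0.le h3' E
    refine ⟨triple h1, (nb_of_pp h5).mono_Y hpow, (nb_of_pp h6).mono_Y hpow, ?_, ?_, ?_⟩
    · refine le_trans ?_ h3'
      exact_mod_cast rad_num_le h1 r
    · have h7 : (2 : ℝ) ^ j ≤ (rad3 t : ℝ) ^ (2 : ℝ) := by
        have h8 : (rad3 t : ℝ) ^ (2 : ℝ) = rad3 t * rad3 t := by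
          rw [show (2 : ℝ) = ((2 : ℕ) : ℝ) by norm_num, Real.rpow_natCast, sq]
        rw [h8]
        nlinarith
      calc ((2 : ℝ) ^ j) ^ L ≤ ((rad3 t : ℝ) ^ (2 : ℝ)) ^ L :=
            Real.rpow_le_rpow (by positivity) h7 hL.le
        _ = (rad3 t : ℝ) ^ (2 * L) := by rw [← Real.rpow_mul hr0.le]
        _ ≤ _ := h1.2.2.2.2.2.1
    · refine h1.2.2.2.2.2.2.trans (Real.exp_le_exp.2 ?_)
      exact Real.rpow_le_rpow hr0.le h3' hδ.le
  set P : ℕ × ℕ × ℕ → ℕ → Prop := fun t m => PowerProduct n ((rad3 t : ℝ) ^ E) m with hP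
  set A := T.filter fun t => P t t.1 ∧ P t t.2.1 with hA
  set B := T.filter fun t => P t t.1 ∧ P t t.2.2 with hB
  set D := T.filter fun t => P t t.2.1 ∧ P t t.2.2 with hD
  have hsub : T ⊆ A ∪ (B ∪ D) := by
    intro t ht
    obtain ⟨-, h2, -, -⟩ := hT t ht
    rw [Finset.mem_union, Finset.mem_union, Finset.mem_filter, Finset.mem_filter,
      Finset.mem_filter]
    rcases h2 with h2 | h2 | h2
    · exact Or.inl ⟨ht, h2⟩
    · exact Or.inr (Or.inl ⟨ht, h2⟩)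
    · exact Or.inr (Or.inr ⟨ht, h2⟩)
  have hcA := hone 0 1 2 (by decide) (by decide) (by decide) A (Finset.filter_subset _ _)
    (fun t ht => (Finset.mem_filter.1 ht).2)
  have hcB := hone 0 2 1 (by decide) (by decide) (by decide) B (Finset.filter_subset _ _)
    (fun t ht => (Finset.mem_filter.1 ht).2)
  have hcD := hone 1 2 0 (by decide) (by decide) (by decide) D (Finset.filter_subset _ _)
    (fun t ht => (Finset.mem_filter.1 ht).2)
  have h1 : (T.card : ℝ) ≤ A.card + (B.card + D.card) := by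
    have h2 := (Finset.card_le_card hsub).trans ((Finset.card_union_le _ _).trans
      (Nat.add_le_add_left (Finset.card_union_le _ _) _))
    exact_mod_cast h2
  linarith

/-- the count for products of powers -/
theorem count (n E : ℕ) (ε : ℝ) (hε : 0 < ε) : ∃ M δ C : ℝ, 0 < δ ∧ 0 ≤ C ∧ ∀ X : ℝ, 1 ≤ X →
    ∀ T : Finset (ℕ × ℕ × ℕ), (∀ t ∈ T, t ∈ Exceptions M δ X ∧
      TwoOf (PowerProduct n ((rad3 t : ℝ) ^ E)) t) → (T.card : ℝ) ≤ C * X ^ ε := by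
  classical
  obtain ⟨L, δ, C, hL, hδ, hC, hcore⟩ := Pool.Agent.N745.TP.core n E (ε / 2) (half_pos hε)
  obtain ⟨D, hD, hlog⟩ := Pool.Agent.N745.T1.polylog_le 1 1 (half_pos hε)
  refine ⟨2 * L, δ, D * (3 * (C * 2 ^ (ε / 2))), hδ, by positivity, ?_⟩
  intro X hX T hT
  have hX0 : 0 < X := by linarith
  have hfl : 1 ≤ ⌊X⌋₊ := Nat.le_floor (by exact_mod_cast hX)
  have hfle : (⌊X⌋₊ : ℝ) ≤ X := Nat.floor_le hX0.le
  -- the pieces
  set J : ℕ := Nat.log 2 ⌊X⌋₊ + 1 with hJ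
  let piece : ℕ → Finset (ℕ × ℕ × ℕ) := fun j => T.filter fun t =>
    rad3 t ≤ 2 ^ j ∧ 2 ^ j ≤ 2 * rad3 t
  have hcov : T ⊆ (Finset.range (J + 1)).biUnion piece := by
    intro t ht
    have h1 := (hT t ht).1
    have h2 := two_le_rad3 h1
    have h3 : (rad3 t : ℝ) ≤ X := h1.2.2.2.2.1
    have h4 : rad3 t ≤ ⌊X⌋₊ := Nat.le_floor h3
    rw [Finset.mem_biUnion]
    refine ⟨Nat.log 2 (rad3 t) + 1, ?_, ?_⟩
    · rw [Finset.mem_range, hJ]
      have := Nat.log_mono_right (b := 2) h4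
      omega
    · rw [Finset.mem_filter]
      refine ⟨ht, (Nat.lt_pow_succ_log_self (by norm_num) _).le, ?_⟩
      rw [pow_succ, mul_comm]
      exact Nat.mul_le_mul_left _ (Nat.pow_log_le_self 2 (by omega))
  have hpiece : ∀ j ∈ Finset.range (J + 1), ((piece j).card : ℝ) ≤
      3 * (C * 2 ^ (ε / 2)) * X ^ (ε / 2) := by
    intro j hj
    rw [Finset.mem_range, hJ] at hj
    have h1 := count_dyadic hL hδ hcore X j (piece j) (fun t ht => by
      obtain ⟨h2, h3, h4⟩ := Finset.mem_filter.1 ht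
      exact ⟨(hT t h2).1, (hT t h2).2, h3, h4⟩)
    have h2 : (2 : ℝ) ^ j ≤ 2 * X := by
      calc (2 : ℝ) ^ j ≤ 2 ^ (Nat.log 2 ⌊X⌋₊ + 1) := pow_le_pow_right₀ (by norm_num) (by omega)
        _ = 2 * ((2 ^ Nat.log 2 ⌊X⌋₊ : ℕ) : ℝ) := by push_cast; ring
        _ ≤ 2 * (⌊X⌋₊ : ℝ) := by
            apply mul_le_mul_of_nonneg_left _ (by norm_num)
            exact_mod_cast Nat.pow_log_le_self 2 (by omega)
        _ ≤ 2 * X := by linarith
    calc ((piece j).card : ℝ) ≤ 3 * (C * ((2 : ℝ) ^ j) ^ (ε / 2)) := h1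
      _ ≤ 3 * (C * (2 * X) ^ (ε / 2)) := by
          apply mul_le_mul_of_nonneg_left _ (by norm_num)
          apply mul_le_mul_of_nonneg_left _ hC.le
          exact Real.rpow_le_rpow (by positivity) h2 (by positivity)
      _ = 3 * (C * 2 ^ (ε / 2)) * X ^ (ε / 2) := by
          rw [Real.mul_rpow (by norm_num) hX0.le]
          ring
  have hJ1 : ((J + 1 : ℕ) : ℝ) ≤ D * X ^ (ε / 2) := by
    have h1 := hlog ⌊X⌋₊ hfl
    rw [pow_one] at h1
    calc ((J + 1 : ℕ) : ℝ) ≤ ((2 * (1 + Nat.log 2 ⌊X⌋₊) + 1 : ℕ) : ℝ) := by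
          exact_mod_cast (by omega : J + 1 ≤ 2 * (1 + Nat.log 2 ⌊X⌋₊) + 1)
      _ ≤ D * (⌊X⌋₊ : ℝ) ^ (ε / 2) := h1
      _ ≤ D * X ^ (ε / 2) := by
          apply mul_le_mul_of_nonneg_left _ hD.le
          exact Real.rpow_le_rpow (Nat.cast_nonneg _) hfle (by positivity)
  have hsum : (T.card : ℝ) ≤ ∑ j ∈ Finset.range (J + 1), ((piece j).card : ℝ) := by
    have h2 := (Finset.card_le_card hcov).trans Finset.card_biUnion_le
    exact_mod_cast h2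
  calc (T.card : ℝ) ≤ ∑ j ∈ Finset.range (J + 1), ((piece j).card : ℝ) := hsum
    _ ≤ ∑ _j ∈ Finset.range (J + 1), 3 * (C * 2 ^ (ε / 2)) * X ^ (ε / 2) :=
        Finset.sum_le_sum hpiece
    _ = ((J + 1 : ℕ) : ℝ) * (3 * (C * 2 ^ (ε / 2)) * X ^ (ε / 2)) := by
        rw [Finset.sum_const, Finset.card_range, nsmul_eq_mul]
    _ ≤ (D * X ^ (ε / 2)) * (3 * (C * 2 ^ (ε / 2)) * X ^ (ε / 2)) := by
        apply mul_le_mul_of_nonneg_right hJ1 (by positivity)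
    _ = D * (3 * (C * 2 ^ (ε / 2))) * (X ^ (ε / 2) * X ^ (ε / 2)) := by ring
    _ = D * (3 * (C * 2 ^ (ε / 2))) * X ^ ε := by
        rw [← Real.rpow_add hX0]
        congr 2
        ring

/-- an integer which is not dusty is a product of powers of few integers -/
lemma pp_of_not_dusty {M δ X θ : ℝ} (hθ : 0 < θ) (hθ1 : θ ≤ 1) {E n : ℕ} (hE : 1 ≤ E)
    (hn : 2 / θ ≤ n) {t : ℕ × ℕ × ℕ} (h : t ∈ Exceptions M δ X) (j : Fin 3)
    (hd : ¬ Dusty (rad3 t) θ E (num t j)) :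
    PowerProduct (n + 1) ((rad3 t : ℝ) ^ (2 * E)) (num t j) := by
  have hr1 : (1 : ℝ) ≤ rad3 t := by exact_mod_cast (two_le_rad3 h).trans' (by norm_num)
  rw [dusty_iff] at hd
  exact pp_of_nb (Pool.Agent.N745.T1.nb_of_not_dusty hr1 hθ hθ1 hE hn
    (Pool.Agent.H785R2.ABC.EC.num_pos (triple h) j) (by exact_mod_cast rad_num_le h j) hd)

/-- a number with at most `n` prime factors is a product of `n` powers -/
lemma pp_of_card {n : ℕ} {Y : ℝ} (hY : 1 ≤ Y) {m : ℕ} (hm : 0 < m)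
    (hp : ∀ p ∈ m.primeFactors, (p : ℝ) ≤ Y) (hn : m.primeFactors.card ≤ n) :
    PowerProduct n Y m := by
  classical
  apply pp_of_nb
  apply NB.mono_n _ hY hn
  apply NB.of_type (ι := {p // p ∈ m.primeFactors}) (Fintype.card_coe _) (fun p => p.1)
    (fun p => m.factorization p.1)
  · intro p
    exact ⟨(Nat.prime_of_mem_primeFactors p.2).pos, hp p.1 p.2⟩
  · have h1 := Nat.prod_factorization_pow_eq_self hm.ne'
    rw [Finsupp.prod, Nat.support_factorization] at h1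
    rw [Finset.prod_coe_sort m.primeFactors (fun p => p ^ m.factorization p)]
    exact h1.symm

/-- from finite sets to sets -/
lemma to_set {M δ C ε X : ℝ} (hδ : 0 < δ) {Q : ℕ × ℕ × ℕ → Prop}
    (h : ∀ T : Finset (ℕ × ℕ × ℕ), (∀ t ∈ T, t ∈ Exceptions M δ X ∧ Q t) →
      (T.card : ℝ) ≤ C * X ^ ε) :
    {t | t ∈ Exceptions M δ X ∧ Q t}.Finite ∧
      ({t | t ∈ Exceptions M δ X ∧ Q t}.ncard : ℝ) ≤ C * X ^ ε := by
  have hfin : {t | t ∈ Exceptions M δ X ∧ Q t}.Finite :=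
    (finite_exc M δ X hδ).subset fun t ht => ht.1
  refine ⟨hfin, ?_⟩
  rw [Set.ncard_eq_toFinset_card _ hfin]
  exact h _ fun t ht => hfin.mem_toFinset.1 ht

/-- **Theorem.** (1) For all `0 < θ ≤ 1`, `E ≥ 1` and `ε > 0` there are `M`, `C` and `δ > 0` such
that for all `X ≥ 1` all but at most `C X ^ ε` of the abc-triples with `R ≤ X` and
`R ^ M ≤ c ≤ exp (R ^ δ)`, `R = rad (abc)`, have two members each of which is divisible by the
`E`-th power of an integer in `(R ^ (θ/2), R ^ θ]`. (2) For all `n`, `E` and `ε > 0` there are `M`,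
`C` and `δ > 0` such that for all `X ≥ 1` at most `C X ^ ε` of these triples have two members which
are products of powers of `n` positive integers `≤ R ^ E`; (3) in particular at most `C X ^ ε` of
them have two members with at most `n` prime divisors. -/
theorem result :
    (∀ (θ : ℝ) (E : ℕ) (ε : ℝ), 0 < θ → θ ≤ 1 → 1 ≤ E → 0 < ε → ∃ M δ C : ℝ, 0 < δ ∧
      ∀ X : ℝ, 1 ≤ X →
        {t | t ∈ Exceptions M δ X ∧ ¬ TwoOf (Dusty (rad3 t) θ E) t}.Finite ∧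
        ({t | t ∈ Exceptions M δ X ∧ ¬ TwoOf (Dusty (rad3 t) θ E) t}.ncard : ℝ) ≤ C * X ^ ε) ∧
    (∀ (n E : ℕ) (ε : ℝ), 0 < ε → ∃ M δ C : ℝ, 0 < δ ∧ ∀ X : ℝ, 1 ≤ X →
        {t | t ∈ Exceptions M δ X ∧ TwoOf (PowerProduct n ((rad3 t : ℝ) ^ E)) t}.Finite ∧
        ({t | t ∈ Exceptions M δ X ∧
          TwoOf (PowerProduct n ((rad3 t : ℝ) ^ E)) t}.ncard : ℝ) ≤ C * X ^ ε) ∧
    (∀ (n : ℕ) (ε : ℝ), 0 < ε → ∃ M δ C : ℝ, 0 < δ ∧ ∀ X : ℝ, 1 ≤ X →
        {t | t ∈ Exceptions M δ X ∧ TwoOf (fun m => m.primeFactors.card ≤ n) t}.Finite ∧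
        ({t | t ∈ Exceptions M δ X ∧
          TwoOf (fun m => m.primeFactors.card ≤ n) t}.ncard : ℝ) ≤ C * X ^ ε) := by
  refine ⟨?_, ?_, ?_⟩
  · intro θ E ε hθ hθ1 hE hε
    obtain ⟨n, hn⟩ := exists_nat_ge (2 / θ)
    obtain ⟨M, δ, C, hδ, -, h⟩ := count (n + 1) (2 * E) ε hε
    refine ⟨M, δ, C, hδ, fun X hX => to_set hδ fun T hT => h X hX T fun t ht => ?_⟩
    obtain ⟨h1, h2⟩ := hT t ht
    refine ⟨h1, ?_⟩
    have k0 := pp_of_not_dusty hθ hθ1 hE hn h1 0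
    have k1 := pp_of_not_dusty hθ hθ1 hE hn h1 1
    have k2 := pp_of_not_dusty hθ hθ1 hE hn h1 2
    have e0 : num t 0 = t.1 := rfl
    have e1 : num t 1 = t.2.1 := rfl
    have e2 : num t 2 = t.2.2 := rfl
    rw [e0] at k0
    rw [e1] at k1
    rw [e2] at k2
    unfold TwoOf at h2 ⊢
    by_cases d0 : Dusty (rad3 t) θ E t.1 <;> by_cases d1 : Dusty (rad3 t) θ E t.2.1 <;>
      by_cases d2 : Dusty (rad3 t) θ E t.2.2
    · exact absurd (Or.inl ⟨d0, d1⟩) h2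
    · exact absurd (Or.inl ⟨d0, d1⟩) h2
    · exact absurd (Or.inr (Or.inl ⟨d0, d2⟩)) h2
    · exact Or.inr (Or.inr ⟨k1 d1, k2 d2⟩)
    · exact absurd (Or.inr (Or.inr ⟨d1, d2⟩)) h2
    · exact Or.inr (Or.inl ⟨k0 d0, k2 d2⟩)
    · exact Or.inl ⟨k0 d0, k1 d1⟩
    · exact Or.inl ⟨k0 d0, k1 d1⟩
  · intro n E ε hε
    obtain ⟨M, δ, C, hδ, -, h⟩ := count n E ε hε
    exact ⟨M, δ, C, hδ, fun X hX => to_set hδ (h X hX)⟩
  · intro n ε hε
    obtain ⟨M, δ, C, hδ, -, h⟩ := count n 1 ε hε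
    refine ⟨M, δ, C, hδ, fun X hX => to_set hδ fun T hT => h X hX T fun t ht => ?_⟩
    obtain ⟨h1, h2⟩ := hT t ht
    refine ⟨h1, ?_⟩
    have hr1 : (1 : ℝ) ≤ (rad3 t : ℝ) ^ 1 := by
      rw [pow_one]
      exact_mod_cast (two_le_rad3 h1).trans' (by norm_num)
    have hpp : ∀ j : Fin 3, (num t j).primeFactors.card ≤ n →
        PowerProduct n ((rad3 t : ℝ) ^ 1) (num t j) := by
      intro j hj
      have hpos := Pool.Agent.H785R2.ABC.EC.num_pos (triple h1) j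
      apply pp_of_card hr1 hpos _ hj
      intro p hp
      rw [pow_one]
      have h3 : p ∣ Pool.Agent.H785R2.ABC.rad (num t j) :=
        Finset.dvd_prod_of_mem (fun q => q) hp
      have h4 := (Nat.le_of_dvd (one_le_radical _) h3).trans (rad_num_le h1 j)
      exact_mod_cast h4
    rcases h2 with ⟨h3, h4⟩ | ⟨h3, h4⟩ | ⟨h3, h4⟩
    · exact Or.inl ⟨hpp 0 h3, hpp 1 h4⟩
    · exact Or.inr (Or.inl ⟨hpp 0 h3, hpp 2 h4⟩)
    · exact Or.inr (Or.inr ⟨hpp 1 h3, hpp 2 h4⟩)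

end Pool.Agent.Results.MP_2ec8a3_nt.TwoDustyMembers
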